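import Pool.Agent.Lib.MP_cfac74_al.Tab.Plane
import Pool.Agent.Lib.MP_cfac74_al.Tab.G7.Dat
import Pool.Agent.Lib.MP_cfac74_al.Tab.G7.TL

/-!
# MP_cfac74_al : geometry 7, check of the lines
-/

set_option autoImplicit false
set_option maxRecDepth 1000000

namespace Pool.Agent.Lib.MP_cfac74_al.Tab

open Pool.Agent.Lib.MP_cfac74_al.Ch

/-- the packed offset -/
def O7l : ℕ := nat_lit 0x40000000004000000000400000000040000000004000000000400000000040000000004000000000400000000040000000004000000000400000000040000000004000000000400000000040000000004000000000400000000040000000004000000000400000000040000000004000000000400000000040000000004000000000400000000040000000004000000000400000000040000000004000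

theorem lines7 : chkT 7 Z7 TL7 (supR Z7 R7 (cdF (dgs 7 0)))
    (tot (supR Z7 R7 (cdF (dgs 7 0)))) O7l (dgs 7 0) (pts7 ++ [0]) 0 = true := by
  decide +kernel

end Pool.Agent.Lib.MP_cfac74_al.Tab
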