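import Pool.Agent.Lib.MP_cfac74_al.Tab.Fin
import Pool.Agent.Lib.MP_cfac74_al.Tab.G7.Dat

/-!
# MP_cfac74_al : geometry 7, constants
-/

set_option autoImplicit false
set_option maxRecDepth 1000000

namespace Pool.Agent.Lib.MP_cfac74_al.Tab

open Pool.Agent.Lib.MP_cfac74_al.Ch

/-- the packed offset -/
def O7 : ℕ := nat_lit 0x40000000004000000000400000000040000000004000000000400000000040000000004000000000400000000040000000004000000000400000000040000000004000000000400000000040000000004000000000400000000040000000004000000000400000000040000000004000000000400000000040000000004000000000400000000040000000004000000000400000000040000000004000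

theorem Z7_eq : Zl 7 = Z7 := by
  unfold Zl Z7
  simp [List.ofFn_succ, kf, Zp, W]

theorem R7_eq : RW A7 B7 = R7 := by decide +kernel

theorem O7_eq : Ofs = O7 := by decide +kernel

theorem A7_alt : ∀ i j, A7 i j = - A7 j i := by decide +kernel

theorem B7_alt : ∀ i j, B7 i j = - B7 j i := by decide +kernel

theorem pts7_lt : ∀ u ∈ pts7, u < 65536 := by decide +kernel

theorem pts7_len : pts7.length = 1093 := by decide +kernel

end Pool.Agent.Lib.MP_cfac74_al.Tab
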