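import Pool.Agent.Lib.MP_cfac74_al.Tab.G7.Cst
import Pool.Agent.Lib.MP_cfac74_al.Tab.G7.CL
import Pool.Agent.Lib.MP_cfac74_al.Tab.G7.E0
import Pool.Agent.Lib.MP_cfac74_al.Tab.G7.E1
import Pool.Agent.Lib.MP_cfac74_al.Tab.G7.E2
import Pool.Agent.Lib.MP_cfac74_al.Tab.G7.E3

/-!
# MP_cfac74_al : geometry 7, the complete table
-/

set_option autoImplicit false
set_option maxRecDepth 1000000

namespace Pool.Agent.Lib.MP_cfac74_al.Tab

open Pool.Agent.Lib.MP_cfac74_al.Ch

theorem TL7_len : TL7.length = 32 := by decide +kernel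

theorem TE7_len : TE7.length = 32 := by decide +kernel

theorem planes7 : ∀ p < 2884, ∃ b b' : Fin 7 → ZMod 3, LaneOK A7 B7 TE7 p b b' ∧
    PlOK 7 pts7 pts7.length TD7 p b b' := by
  rw [pts7_len]
  have c0 := chunk_ok (by norm_num) (by norm_num) Z7_eq R7_eq (o := O7e0) O7_eq TE7_len
    pts7_lt t7_0 d7_0
  rw [l7_0] at c0
  have c1 := chunk_ok (by norm_num) (by norm_num) Z7_eq R7_eq (o := O7e0) O7_eq TE7_len
    pts7_lt t7_1 d7_1
  rw [l7_1] at c1
  have c2 := chunk_ok (by norm_num) (by norm_num) Z7_eq R7_eq (o := O7e1) O7_eq TE7_len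
    pts7_lt t7_2 d7_2
  rw [l7_2] at c2
  have c3 := chunk_ok (by norm_num) (by norm_num) Z7_eq R7_eq (o := O7e1) O7_eq TE7_len
    pts7_lt t7_3 d7_3
  rw [l7_3] at c3
  have c4 := chunk_ok (by norm_num) (by norm_num) Z7_eq R7_eq (o := O7e2) O7_eq TE7_len
    pts7_lt t7_4 d7_4
  rw [l7_4] at c4
  have c5 := chunk_ok (by norm_num) (by norm_num) Z7_eq R7_eq (o := O7e2) O7_eq TE7_len
    pts7_lt t7_5 d7_5
  rw [l7_5] at c5
  have c6 := chunk_ok (by norm_num) (by norm_num) Z7_eq R7_eq (o := O7e3) O7_eq TE7_len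
    pts7_lt t7_6 d7_6
  rw [l7_6] at c6
  have c7 := chunk_ok (by norm_num) (by norm_num) Z7_eq R7_eq (o := O7e3) O7_eq TE7_len
    pts7_lt t7_7 d7_7
  rw [l7_7] at c7
  intro p hp
  by_cases h0 : p < 364
  · exact c0 p (by omega) (by omega)
  by_cases h1 : p < 727
  · exact c1 p (by omega) (by omega)
  by_cases h2 : p < 1089
  · exact c2 p (by omega) (by omega)
  by_cases h3 : p < 1450
  · exact c3 p (by omega) (by omega)
  by_cases h4 : p < 1810
  · exact c4 p (by omega) (by omega)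
  by_cases h5 : p < 2169
  · exact c5 p (by omega) (by omega)
  by_cases h6 : p < 2527
  · exact c6 p (by omega) (by omega)
  exact c7 p (by omega) (by omega)

/-- **the table of the geometry 7** -/
theorem geo7 : Geo A7 B7 pts7 TL7 TE7 TD7 1093 2884 := by
  have h := geo_of (A := A7) (B := B7) TL7_len TE7_len
    (lines_ok (by norm_num) (by norm_num) Z7_eq R7_eq (o := O7l) O7_eq TL7_len lines7)
    planes7
  rw [pts7_len] at h
  exact h

end Pool.Agent.Lib.MP_cfac74_al.Tab
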